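import Pool.Agent.H71.VK.Stmt
import Pool.Agent.H71.HV.ALL

/-! GEN: the assembly with the local Hjorth theorem. -/

set_option autoImplicit false

open Set Topology MeasureTheory Pool.Agent.TK

namespace Pool.Agent.H71.VK

/-- the action on quotient structures -/
@[reducible] def yAct (C : Type) : MulAction (Equiv.Perm ℕ) (Y C) where
  smul g y := fun i j => y (g⁻¹ i) (g⁻¹ j)
  one_smul y := by
    funext i j
    change y ((1 : Equiv.Perm ℕ)⁻¹ i) ((1 : Equiv.Perm ℕ)⁻¹ j) = y i j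
    simp
  mul_smul g h y := by
    funext i j
    change y ((g * h)⁻¹ i) ((g * h)⁻¹ j) = y (h⁻¹ (g⁻¹ i)) (h⁻¹ (g⁻¹ j))
    rw [mul_inv_rev]
    rfl

lemma yAct_smul {C : Type} (g : Equiv.Perm ℕ) (y z : Y C) :
    (yAct C).toSMul.smul g y = z ↔ ∀ i j, z (g i) (g j) = y i j := by
  constructor
  · rintro rfl i j
    change y (g⁻¹ (g i)) (g⁻¹ (g j)) = y i j
    rw [show g⁻¹ (g i) = i from Equiv.symm_apply_apply g i,
      show g⁻¹ (g j) = j from Equiv.symm_apply_apply g j]
  · intro h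
    funext i j
    change y (g⁻¹ i) (g⁻¹ j) = z i j
    rw [← h, show g (g⁻¹ i) = i from Equiv.apply_symm_apply g i,
      show g (g⁻¹ j) = j from Equiv.apply_symm_apply g j]

lemma measurable_yAct (C : Type) [MeasurableSpace C] :
    @Measurable (Equiv.Perm ℕ × Y C) (Y C) (@Prod.instMeasurableSpace _ _ permMeas _) _
      (fun p => (yAct C).toSMul.smul p.1 p.2) := by
  let := permMeas
  let := permTop
  have := borelSpace_perm
  have := isTopologicalGroup_perm
  refine measurable_pi_lambda _ fun i => measurable_pi_lambda _ fun j => ?_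
  change Measurable fun p : Equiv.Perm ℕ × Y C => p.2 (p.1⁻¹ i) (p.1⁻¹ j)
  have h1 : ∀ k, Measurable fun p : Equiv.Perm ℕ × Y C => (p.1⁻¹ k : ℕ) := by
    intro k
    have h2 : Measurable fun g : Equiv.Perm ℕ => (g⁻¹ k : ℕ) :=
      (continuous_perm_symm_apply k).measurable
    exact h2.comp measurable_fst
  have h3 : Measurable fun q : ℕ × ℕ × Y C => q.2.2 q.1 q.2.1 := by
    refine measurable_from_prod_countable_right fun a => ?_
    refine measurable_from_prod_countable_right fun b => ?_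
    exact (measurable_pi_apply b).comp (measurable_pi_apply a)
  exact h3.comp ((h1 i).prodMk ((h1 j).prodMk measurable_snd))

/-- isomorphic quotient structures come from isomorphic structures -/
lemma iso_of_flat {C : Type} (hFLC : FLC C) (hLIFT : LIFT C)
    {T : Set (Fl C)} {M N : St C} {ν ν' : List ℕ → ℕ} {φ φ' : Y C} {g : Equiv.Perm ℕ}
    (h1 : Flat T M ν φ) (h2 : Flat T N ν' φ') (hg : ∀ i j, φ' (g i) (g j) = φ i j) :
    Iso M N := by
  obtain ⟨hR, hon⟩ := hFLC T M N ν ν' φ φ' g h1 h2 hg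
  obtain ⟨m, hm⟩ := hR.tot []
  obtain ⟨h, hh, -, -⟩ := hLIFT T M N _ hR hon [] m hm
  exact ⟨h, by simp, hh.1, hh.2⟩

theorem pf_GEN {C : Type} {c0 : C} [MeasurableSpace C] [StandardBorelSpace C] (hHB : HB C c0)
    (hRLM : RLM C c0) (hFLX : FLX C) (hFLI : FLI C c0) (hFLC : FLC C) (hLIFT : LIFT C) :
    GEN C c0 := by
  classical
  intro P hP X hX hV hI
  by_cases hperf : Perf X
  · exact Or.inl hperf
  right
  obtain ⟨T, hT, hBF⟩ := hHB X hX hV hI hperf
  let := upgradeStandardBorel (St C)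
  have hA : AnalyticSet X := hX.analyticSet
  rw [AnalyticSet] at hA
  rcases hA with rfl | ⟨q, hq, hqX⟩
  · exact Or.inl ⟨∅, countable_empty, by simp⟩
  have hqm : Measurable q := hq.measurable
  have hqmem : ∀ z, q z ∈ X := fun z => by rw [← hqX]; exact mem_range_self z
  have hqV : ∀ z, Valid c0 (q z) := fun z => hV _ (hqmem z)
  have hRel : ∀ l m, MeasurableSet {z | Rel T (q z) l m} := by
    intro l m
    have h1 := hqm (hRLM T hT l m)
    have h2 : q ⁻¹' {M : St C | Valid c0 M ∧ Rel T M l m} = {z | Rel T (q z) l m} := by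
      ext z
      exact ⟨fun h => h.2, fun h => ⟨hqV z, h⟩⟩
    rwa [h2] at h1
  obtain ⟨ν, Φ, hΦ, hF⟩ := hFLX T (ℕ → ℕ) q hqm hRel
  -- isomorphism of the structures and of the quotients
  have key1 : ∀ z z' (g : Equiv.Perm ℕ), (∀ i j, Φ z' (g i) (g j) = Φ z i j) →
      Iso (q z) (q z') := fun z z' g hg => iso_of_flat hFLC hLIFT (hF z) (hF z') hg
  have key2 : ∀ z z', Iso (q z) (q z') →
      ∃ g : Equiv.Perm ℕ, ∀ i j, Φ z' (g i) (g j) = Φ z i j := by
    rintro z z' ⟨h, -, h1, h2⟩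
    obtain ⟨g, hg, -⟩ := hFLI T (q z) (q z') (ν z) (ν z') (Φ z) (Φ z') h (hqV z) (hqV z')
      (hF z) (hF z') ⟨h1, h2⟩
    exact ⟨g, hg⟩
  have isymm : ∀ M N : St C, Iso M N → Iso N M := by
    rintro M N ⟨h, -, h1, h2⟩
    refine ⟨h.symm, by simp, fun u v => ?_, fun l => ?_⟩
    · rw [h1]; simp
    · rw [h2, List.map_map]; simp
  have itrans : ∀ M N L : St C, Iso M N → Iso N L → Iso M L := by
    rintro M N L ⟨h, -, h1, h2⟩ ⟨k, -, k1, k2⟩
    refine ⟨h.trans k, by simp, fun u v => ?_, fun l => ?_⟩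
    · rw [h1, k1]; rfl
    · rw [h2, k2, List.map_map]; rfl
  let := permTop
  let := permMeas
  have := polishSpace_perm
  have := isTopologicalGroup_perm
  have := borelSpace_perm
  let := yAct C
  rcases Pool.Agent.H71.HV.localHjorth (Equiv.Perm ℕ) (Y C) (measurable_yAct C) Φ hΦ with
    ⟨c, hc⟩ | ⟨F, hF1, hF2⟩ | h3
  · left
    let good : ℕ → Prop := fun n => ∃ z, ∃ g : Equiv.Perm ℕ, g • Φ z = c n
    let zz : ℕ → (ℕ → ℕ) := fun n => if h : good n then h.choose else fun _ => 0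
    have hzz : ∀ n, good n → ∃ g : Equiv.Perm ℕ, g • Φ (zz n) = c n := by
      intro n hn
      have : zz n = hn.choose := dif_pos hn
      rw [this]
      exact hn.choose_spec
    refine ⟨range fun n => q (zz n), countable_range _, ?_⟩
    intro M hM
    rw [← hqX] at hM
    obtain ⟨z, rfl⟩ := hM
    obtain ⟨n, g, hg⟩ := hc z
    obtain ⟨g', hg'⟩ := hzz n ⟨z, g, hg⟩
    refine ⟨_, ⟨n, rfl⟩, ?_⟩
    have h1 : (g'⁻¹ * g) • Φ z = Φ (zz n) := by
      rw [mul_smul, hg, ← hg', inv_smul_smul]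
    exact key1 z (zz n) _ ((yAct_smul _ _ _).1 h1)
  · exfalso
    apply hperf
    refine ⟨fun x => q (F x), hqm.comp hF1.measurable, fun x => hqmem _, ?_⟩
    intro x x' hxx hiso
    obtain ⟨g, hg⟩ := key2 _ _ hiso
    exact hF2 x x' hxx g ((yAct_smul _ _ _).2 hg)
  · right
    rintro ⟨T', hT', h4⟩
    apply h3
    let good : St C → Prop := fun N => ∃ z, Iso (q z) N
    let zz : St C → (ℕ → ℕ) := fun n => if h : good n then h.choose else fun _ => 0
    have hzz : ∀ n, good n → Iso (q (zz n)) n := by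
      intro n hn
      have : zz n = hn.choose := dif_pos hn
      rw [this]
      exact hn.choose_spec
    have hc : ((fun N => Φ (zz N)) '' T' ∪ {Φ fun _ => 0}).Countable :=
      (hT'.image _).union (countable_singleton _)
    obtain ⟨c, hc'⟩ := hc.exists_eq_range ⟨_, Or.inr rfl⟩
    refine ⟨c, fun z hz => ?_⟩
    have hstab : MulAction.stabilizer (Equiv.Perm ℕ) (Φ z) = AutY (Φ z) := by
      ext g
      rw [MulAction.mem_stabilizer_iff]
      exact yAct_smul g (Φ z) (Φ z)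
    rw [hstab] at hz
    obtain ⟨N, hN, hiso⟩ := h4 (q z) (hqmem z)
      (hP T (q z) (hqV z) (hBF _ (hqmem z)) (ν z) (Φ z) (hF z) hz)
    have h5 : Iso (q z) (q (zz N)) := itrans _ _ _ hiso (isymm _ _ (hzz N ⟨z, hiso⟩))
    obtain ⟨g, hg⟩ := key2 _ _ h5
    have h6 : Φ (zz N) ∈ range c := by
      rw [← hc']
      exact Or.inl ⟨N, hN, rfl⟩
    obtain ⟨n, hn⟩ := h6
    refine ⟨n, g, ?_⟩
    rw [hn]
    exact (yAct_smul _ _ _).2 hg

end Pool.Agent.H71.VK
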