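import Pool.Agent.H71.VK.Stmt

/-! CLB: the limit of onto correspondences is onto, if there are not infinitely many pairwise
inseparable vertices. -/

set_option autoImplicit false

open Set Pool.Agent.TK

namespace Pool.Agent.H71.VK

variable {C : Type} {c0 : C}

lemma isoH_symm {h : Equiv.Perm ℕ} {M N : St C} (H : IsoH h M N) : IsoH h.symm N M := by
  refine ⟨fun u v => ?_, fun l => ?_⟩
  · rw [H.1]; simp
  · rw [H.2, List.map_map]; simp

lemma isoH_trans {h k : Equiv.Perm ℕ} {M N L : St C} (H : IsoH h M N) (K : IsoH k N L) :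
    IsoH (h.trans k) M L := by
  refine ⟨fun u v => ?_, fun l => ?_⟩
  · rw [H.1, K.1]; rfl
  · rw [H.2, K.2, List.map_map]; rfl

lemma PI_of_isoH {k : Equiv.Perm ℕ} {M N : St C} (H : IsoH k M N) {p : List (ℕ × ℕ)}
    (hp : ∀ z ∈ p, z.2 = k z.1) : PI M N p := by
  refine ⟨fun z hz w hw => ?_, fun z hz w hw => ?_, fun q hq => ?_⟩
  · rw [hp z hz, hp w hw]
    exact k.injective.eq_iff.symm
  · rw [hp z hz, hp w hw]
    exact H.1 _ _
  · rw [H.2, List.map_map]
    exact congrArg N.2 (List.map_congr_left fun z hz => (hp z (hq z hz)).symm)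

theorem pf_CLB (hSWG : SWG C c0) (hITR : ITR C c0) (hRLB : RLB C) (hLIFT : LIFT C)
    (hEMB : EMB C) (hCLA : CLA C c0) : CLB C c0 := by
  classical
  intro T M hV hBF hIns R Q hR hRon hQ hconv m
  induction m using List.reverseRecOn with
  | nil =>
    obtain ⟨m, hm⟩ := hQ.tot []
    have h1 := hQ.len _ _ hm
    rw [List.length_nil, eq_comm, List.length_eq_zero_iff] at h1
    exact ⟨[], h1 ▸ hm⟩
  | append_singleton b v ih =>
    obtain ⟨a, ha⟩ := ih
    by_contra hno
    obtain ⟨g, ginj, -, gab, gR⟩ := hEMB T M M Q hQ a b ha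
    have hv : v ∉ range g := by
      rintro ⟨c, rfl⟩
      apply hno
      refine ⟨a ++ [c], ?_⟩
      have h1 := gR (a ++ [c])
      rwa [List.map_append, gab] at h1
    have hlift : ∀ (F : List ℕ) (k : ℕ), ∃ n, k ≤ n ∧ ∃ h : Equiv.Perm ℕ, IsoH h M M ∧
        (∀ x ∈ a ++ F, h x = g x) ∧ ∀ l, R n l (l.map h) := by
      intro F k
      obtain ⟨n0, hn0⟩ := hconv (a ++ F)
      have h1 : R (max n0 k) (a ++ F) ((a ++ F).map g) :=
        (hn0 _ (le_max_left _ _) _).2 (gR _)
      obtain ⟨h, h2, h3, h4⟩ := hLIFT T M M (R (max n0 k)) (hR _) (hRon _) _ _ h1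
      exact ⟨max n0 k, le_max_right _ _, h, h2, List.map_inj_left.1 h3, h4⟩
    have hNfin : (Nb M (cp M (range g) v)).Finite := by
      by_contra hinf
      apply hIns
      refine hCLA M hV g ginj ?_ v hv hinf
      intro F hF
      obtain ⟨Fl, hFl, -, -⟩ := exists_list hF
      obtain ⟨n, -, h, h1, h2, -⟩ := hlift Fl 0
      refine ⟨h, h1, fun x hx => h2 x (List.mem_append_right _ ?_)⟩
      rw [← hFl] at hx
      exact hx
    set D : Set ℕ := cp M (range g) v with hD
    have hDc : IsCp M (range g) D := isCp_cp hv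
    have hNr : Nb M D ⊆ range g := hDc.nb hV
    have hDd : ∀ x ∈ D, x ∉ range g := fun x hx hx' => Set.disjoint_left.1 hDc.disj hx hx'
    have hDN : IsCp M (Nb M D) D := hDc.change hV subset_rfl
      (Set.disjoint_left.2 fun x hx hx' => hx'.1 hx)
    have hWfin : (g ⁻¹' (Nb M D)).Finite := hNfin.preimage ginj.injOn
    obtain ⟨w, hw, -, -⟩ := exists_list hWfin
    have hgW : g '' ms w = Nb M D := by
      rw [hw, image_preimage_eq_of_subset hNr]
    choose nn hnn hh hiso hag hRl using fun j => hlift (w ++ List.range j) j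
    -- the components
    let E : ℕ → Set ℕ := fun j => (hh j).symm '' D
    have hhw : ∀ j, ∀ x ∈ w, hh j x = g x := fun j x hx =>
      hag j x (List.mem_append_right _ (List.mem_append_left _ hx))
    have hha : ∀ j, ∀ x ∈ a, hh j x = g x := fun j x hx => hag j x (List.mem_append_left _ hx)
    have hE : ∀ j x, x ∈ E j ↔ hh j x ∈ D := by
      intro j x
      constructor
      · rintro ⟨y, hy, rfl⟩
        rwa [Equiv.apply_symm_apply]
      · intro hx
        exact ⟨_, hx, Equiv.symm_apply_apply _ _⟩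
    have hEw : ∀ j, IsCp M (ms w) (E j) := by
      intro j
      have h1 := (hITR (hh j).symm M M (isoH_symm (hiso j))).1 _ _ hDN
      have h2 : (hh j).symm '' (Nb M D) = ms w := by
        rw [← hgW, image_image]
        ext x
        constructor
        · rintro ⟨y, hy, rfl⟩
          change (hh j).symm (g y) ∈ ms w
          rw [← hhw j y hy, Equiv.symm_apply_apply]
          exact hy
        · intro hx
          refine ⟨x, hx, ?_⟩
          change (hh j).symm (g x) = x
          rw [← hhw j x hx, Equiv.symm_apply_apply]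
      rwa [h2] at h1
    have hEa : ∀ j, ∀ x ∈ a, x ∉ E j := by
      intro j x hx hxE
      rw [hE, hha j x hx] at hxE
      exact hDd _ hxE ⟨x, rfl⟩
    have hEr : ∀ j x, x < j → x ∉ E j := by
      intro j x hx hxE
      have h1 : hh j x = g x := hag j x (List.mem_append_right _ (List.mem_append_right _
        (List.mem_range.2 hx)))
      rw [hE, h1] at hxE
      exact hDd _ hxE ⟨x, rfl⟩
    -- the isomorphisms between the components
    let k : ℕ → ℕ → Equiv.Perm ℕ := fun i j => (hh i).trans (hh j).symm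
    have hk : ∀ i j, IsoH (k i j) M M := fun i j => isoH_trans (hiso i) (isoH_symm (hiso j))
    have hkw : ∀ i j, ∀ x ∈ w, k i j x = x := by
      intro i j x hx
      change (hh j).symm (hh i x) = x
      rw [hhw i x hx, ← hhw j x hx, Equiv.symm_apply_apply]
    have hkE : ∀ i j, BijOn (k i j) (E i) (E j) := by
      intro i j
      refine ⟨fun x hx => ?_, (k i j).injective.injOn, fun y hy => ?_⟩
      · rw [hE] at hx ⊢
        change hh j ((hh j).symm (hh i x)) ∈ D
        rwa [Equiv.apply_symm_apply]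
      · refine ⟨k j i y, ?_, ?_⟩
        · rw [hE] at hy ⊢
          change hh i ((hh i).symm (hh j y)) ∈ D
          rwa [Equiv.apply_symm_apply]
        · change (hh j).symm (hh i ((hh i).symm (hh j y))) = y
          rw [Equiv.apply_symm_apply, Equiv.symm_apply_apply]
    have hFI : ∀ i j, FIh (k i j) M w (E i) M w (E j) := by
      intro i j
      refine ⟨rfl, hkE i j, fun x hx => PI_of_isoH (hk i j) ?_⟩
      intro z hz
      rw [List.mem_append] at hz
      rcases hz with hz | hz
      · rw [← dg_eq_zip, mem_dg] at hz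
        rw [hkw i j z.1 hz.2]
        exact hz.1.symm
      · obtain ⟨y, -, rfl⟩ := List.mem_map.1 hz
        rfl
    -- the type of the components
    have hT : ∀ j, InT T M w (E j) := by
      have h1 : ∃ i, InT T M w (E i) := by
        by_contra hcon
        push Not at hcon
        have hfin : (range E).Finite := (hBF w).subset (by
          rintro _ ⟨j, rfl⟩
          exact ⟨hEw j, hcon j⟩)
        have hpick : ∀ A ∈ range E, ∃ x, x ∈ A := by
          rintro _ ⟨j, rfl⟩
          exact (hEw j).nonempty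
        choose! pk hpk using hpick
        obtain ⟨N, hN⟩ := (hfin.image pk).bddAbove
        have h2 : pk (E (N + 1)) ≤ N := hN ⟨_, ⟨N + 1, rfl⟩, rfl⟩
        exact hEr (N + 1) _ (Nat.lt_succ_of_le h2) (hpk _ ⟨N + 1, rfl⟩)
      obtain ⟨i, t, ht, hit⟩ := h1
      intro j
      exact ⟨t, ht, FI.trans ⟨_, hFI j i⟩ hit⟩
    -- the swap
    have hvD : v ∈ D := self_mem_cp hv
    have hrel : ∀ j, E j ≠ E 0 →
        Rel T M (a ++ [(hh 0).symm v]) (a ++ [(hh j).symm v]) := by
      intro j hj
      obtain ⟨f, f1, f2, f3, f4, f5⟩ := hSWG M hV w (E 0) (E j) (k 0 j) (hEw 0) (hEw j)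
        (Ne.symm hj) (hFI 0 j)
      refine ⟨f, Subgroup.subset_closure ⟨f1, f2, w, E 0, E j, hEw 0, hEw j, Ne.symm hj,
        hT 0, f4, f5⟩, ?_⟩
      rw [List.map_append]
      congr 1
      · conv_rhs => rw [← List.map_id a]
        apply List.map_congr_left
        intro x hx
        exact f5 x (hEa 0 x hx) (hEa j x hx)
      · have h1 : (hh 0).symm v ∈ E 0 := ⟨v, hvD, rfl⟩
        rw [List.map_singleton, f3 _ h1]
        change [(hh j).symm (hh 0 ((hh 0).symm v))] = _
        rw [Equiv.apply_symm_apply]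
    -- conclusion
    obtain ⟨n1, hn1⟩ := hconv (a ++ [(hh 0).symm v])
    obtain ⟨x, hx⟩ := (hEw 0).nonempty
    set j := max n1 (x + 1) with hj
    have hxj : x ∉ E j := hEr j x (lt_of_lt_of_le (Nat.lt_succ_self x) (le_max_right _ _))
    have hne : E j ≠ E 0 := fun h => hxj (h ▸ hx)
    have h1 : R (nn j) (a ++ [(hh j).symm v]) (b ++ [v]) := by
      have h2 := hRl j (a ++ [(hh j).symm v])
      rw [List.map_append, List.map_singleton, Equiv.apply_symm_apply] at h2
      have h3 : a.map (hh j) = b := by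
        rw [← gab]
        exact List.map_congr_left (hha j)
      rwa [h3] at h2
    have h2 : R (nn j) (a ++ [(hh 0).symm v]) (b ++ [v]) :=
      (hR _).sat _ _ _ _ h1 ((hRLB T M).1.symm (hrel j hne)) ((hRLB T M).1.refl _)
    exact hno ⟨_, (hn1 (nn j) ((le_max_left _ _).trans (hnn j)) _).1 h2⟩

end Pool.Agent.H71.VK
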