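import Pool.Agent.H71.VK.Stmt

/-! FIM: being isomorphic to a fixed flap is a Borel condition. -/

set_option autoImplicit false

open Set Pool.Agent.TK

namespace Pool.Agent.H71.VK

variable {C : Type} [MeasurableSpace C]

lemma measurable_edge (u v : ℕ) : Measurable fun M : St C => M.1 u v :=
  (measurable_pi_apply v).comp ((measurable_pi_apply u).comp measurable_fst)

lemma measurable_value (l : List ℕ) : Measurable fun M : St C => M.2 l :=
  (measurable_pi_apply l).comp measurable_snd

/-- joined by a path of length `n` -/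
def NStep (M : St C) (A : Set ℕ) (v : ℕ) : ℕ → ℕ → Prop
  | 0, u => u = v
  | n + 1, u => ∃ w, NStep M A v n w ∧ M.1 w u = true ∧ u ∉ A

omit [MeasurableSpace C] in
lemma conn_iff_nstep {M : St C} {A : Set ℕ} {v u : ℕ} :
    Conn M A v u ↔ v ∉ A ∧ ∃ n, NStep M A v n u := by
  constructor
  · rintro ⟨h1, h2⟩
    refine ⟨h1, ?_⟩
    induction h2 with
    | refl => exact ⟨0, rfl⟩
    | tail _ hs ih =>
      obtain ⟨n, hn⟩ := ih
      exact ⟨n + 1, _, hn, hs⟩
  · rintro ⟨h1, n, hn⟩
    refine ⟨h1, ?_⟩
    induction n generalizing u with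
    | zero =>
      have h2 : u = v := hn
      rw [h2]
    | succ n ih =>
      obtain ⟨w, hw, hs⟩ := hn
      exact (ih hw).tail hs

lemma measurableSet_nstep (A : Set ℕ) (v n u : ℕ) :
    MeasurableSet {M : St C | NStep M A v n u} := by
  induction n generalizing u with
  | zero => exact MeasurableSet.const _
  | succ n ih =>
    have h1 : {M : St C | NStep M A v (n + 1) u} =
        ⋃ w, ({M : St C | NStep M A v n w} ∩ ({M : St C | M.1 w u = true} ∩
          {_M : St C | u ∉ A})) := by
      ext M
      simp only [NStep, mem_ofPred_eq, mem_iUnion, mem_inter_iff]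
    rw [h1]
    exact MeasurableSet.iUnion fun w => (ih w).inter
      ((measurable_edge w u (measurableSet_singleton true)).inter (MeasurableSet.const _))

lemma measurableSet_cp (A : Set ℕ) (v u : ℕ) : MeasurableSet {M : St C | u ∈ cp M A v} := by
  have h1 : {M : St C | u ∈ cp M A v} =
      {_M : St C | v ∉ A} ∩ ⋃ n, {M : St C | NStep M A v n u} := by
    ext M
    simp only [mem_ofPred_eq, mem_inter_iff, mem_iUnion]
    exact conn_iff_nstep
  rw [h1]
  exact (MeasurableSet.const _).inter (MeasurableSet.iUnion fun n => measurableSet_nstep A v n u)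

lemma measurableSet_PI [StandardBorelSpace C] (N : St C) (p : List (ℕ × ℕ)) :
    MeasurableSet {M : St C | PI M N p} := by
  have h1 : {M : St C | PI M N p} =
      {_M : St C | ∀ z ∈ p, ∀ w ∈ p, (z.1 = w.1 ↔ z.2 = w.2)} ∩
      ((⋂ z : ℕ × ℕ, ⋂ _ : z ∈ p, ⋂ w : ℕ × ℕ, ⋂ _ : w ∈ p,
        {M : St C | M.1 z.1 w.1 = N.1 z.2 w.2}) ∩
      ⋂ q : List (ℕ × ℕ), ⋂ _ : ∀ z ∈ q, z ∈ p,
        {M : St C | M.2 (q.map Prod.fst) = N.2 (q.map Prod.snd)}) := by
    ext M
    simp only [PI, mem_ofPred_eq, mem_inter_iff, mem_iInter]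
  rw [h1]
  refine (MeasurableSet.const _).inter (MeasurableSet.inter ?_ ?_)
  · refine MeasurableSet.iInter fun z => MeasurableSet.iInter fun _ =>
      MeasurableSet.iInter fun w => MeasurableSet.iInter fun _ => ?_
    exact measurable_edge z.1 w.1 (measurableSet_singleton _)
  · refine MeasurableSet.iInter fun q => MeasurableSet.iInter fun _ => ?_
    exact measurable_value _ (measurableSet_singleton _)

lemma measurableSet_bf [StandardBorelSpace C] (A : Set ℕ) (v : ℕ) (N : St C) (E : Set ℕ) (r : Rk)
    (p : List (ℕ × ℕ)) : MeasurableSet {M : St C | bf M N (cp M A v) E r p} := by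
  induction r generalizing p with
  | zero => exact measurableSet_PI N p
  | sup f ih =>
    have h1 : {M : St C | bf M N (cp M A v) E (Rk.sup f) p} =
        ⋂ n, ({M : St C | bf M N (cp M A v) E (f n) p} ∩
          ((⋂ a, ({M : St C | a ∈ cp M A v}ᶜ ∪
            ⋃ b, ⋃ _ : b ∈ E, {M : St C | bf M N (cp M A v) E (f n) ((a, b) :: p)})) ∩
          ⋂ b, ⋂ _ : b ∈ E, ⋃ a, ({M : St C | a ∈ cp M A v} ∩
            {M : St C | bf M N (cp M A v) E (f n) ((a, b) :: p)}))) := by
      ext M
      simp only [bf, mem_ofPred_eq, mem_inter_iff, mem_iInter, mem_union, mem_compl_iff,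
        mem_iUnion, exists_prop, imp_iff_not_or]
    rw [h1]
    refine MeasurableSet.iInter fun n => (ih n p).inter (MeasurableSet.inter ?_ ?_)
    · refine MeasurableSet.iInter fun a => (measurableSet_cp A v a).compl.union ?_
      exact MeasurableSet.iUnion fun b => MeasurableSet.iUnion fun _ => ih n _
    · refine MeasurableSet.iInter fun b => MeasurableSet.iInter fun _ =>
        MeasurableSet.iUnion fun a => (measurableSet_cp A v a).inter (ih n _)

theorem pf_FIM [StandardBorelSpace C] (hSCO : SCO C) : FIM C := by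
  intro a A v N b E
  obtain ⟨r, hr⟩ := hSCO N b E
  have h1 : {M : St C | FI M a (cp M A v) N b E} =
      {_M : St C | a.length = b.length} ∩ {M : St C | bf M N (cp M A v) E r (a.zip b)} := by
    ext M
    constructor
    · intro h
      exact h.fb r
    · intro h
      have h2 : FB r M a (cp M A v) N b E := h
      exact (hr M a _ h2.symm).symm
  rw [h1]
  exact (MeasurableSet.const _).inter (measurableSet_bf A v N E r _)

end Pool.Agent.H71.VK
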