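import Pool.Agent.H71.VK.CLB
import Pool.Agent.H41.HS.GT

/-! The link between the quotient structure and the group theorem. -/

set_option autoImplicit false

open Set Topology Filter Pool.Agent.TK

namespace Pool.Agent.H71.VK

variable {C : Type} {c0 : C}

/-- supports of the points for a homomorphism onto the symmetric group -/
structure SuppD (H : Subgroup (Equiv.Perm ℕ)) (ψ : H →* Equiv.Perm ℕ) (supp : ℕ → Finset ℕ) :
    Prop where
  surj : ∀ (i : ℕ) (σ : Equiv.Perm ℕ), (∀ n ∈ supp i, σ n = n) →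
    ∃ θ : H, (θ : Equiv.Perm ℕ) i = i ∧ ψ θ = σ
  min : ∀ (i : ℕ) (F : Finset ℕ), (∀ σ : Equiv.Perm ℕ, (∀ n ∈ F, σ n = n) →
    ∃ θ : H, (θ : Equiv.Perm ℕ) i = i ∧ ψ θ = σ) → supp i ⊆ F

namespace SuppD

variable {H : Subgroup (Equiv.Perm ℕ)} {ψ : H →* Equiv.Perm ℕ} {supp : ℕ → Finset ℕ}

lemma image_subset (hs : SuppD H ψ supp) (θ : H) (i : ℕ) :
    supp ((θ : Equiv.Perm ℕ) i) ⊆ (supp i).map (ψ θ).toEmbedding := by
  refine hs.min _ _ fun σ hσ => ?_
  obtain ⟨θ', h1, h2⟩ := hs.surj i ((ψ θ)⁻¹ * σ * ψ θ) (by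
    intro n hn
    have h3 := hσ (ψ θ n) (Finset.mem_map_of_mem _ hn)
    change (ψ θ)⁻¹ (σ (ψ θ n)) = n
    rw [h3]
    exact Equiv.symm_apply_apply _ _)
  refine ⟨θ * θ' * θ⁻¹, ?_, ?_⟩
  · change (θ : Equiv.Perm ℕ) ((θ' : Equiv.Perm ℕ) (((θ : Equiv.Perm ℕ)⁻¹ : Equiv.Perm ℕ)
      ((θ : Equiv.Perm ℕ) i))) = _
    rw [show ((θ : Equiv.Perm ℕ)⁻¹ : Equiv.Perm ℕ) ((θ : Equiv.Perm ℕ) i) = i from
      Equiv.symm_apply_apply _ _, h1]
  · rw [map_mul, map_mul, map_inv, h2]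
    group

lemma eqv (hs : SuppD H ψ supp) (θ : H) (i n : ℕ) :
    n ∈ supp i ↔ ψ θ n ∈ supp ((θ : Equiv.Perm ℕ) i) := by
  have h1 := hs.image_subset θ⁻¹ ((θ : Equiv.Perm ℕ) i)
  have h2 : ((θ⁻¹ : H) : Equiv.Perm ℕ) ((θ : Equiv.Perm ℕ) i) = i :=
    Equiv.symm_apply_apply _ _
  rw [h2] at h1
  constructor
  · intro hn
    obtain ⟨m, hm, hmn⟩ := Finset.mem_map.1 (h1 hn)
    have h3 : (ψ θ⁻¹) m = n := hmn
    have h4 : ψ θ n = m := by
      rw [← h3, map_inv]
      exact Equiv.apply_symm_apply _ _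
    rwa [h4]
  · intro hn
    obtain ⟨m, hm, hmn⟩ := Finset.mem_map.1 (hs.image_subset θ i hn)
    have h3 : m = n := (ψ θ).injective hmn
    rwa [← h3]

end SuppD

lemma exists_reindex {a b : List ℕ} (h : a ⊆ b) : ∃ π, reindex π b = a := by
  classical
  induction a with
  | nil => exact ⟨[], rfl⟩
  | cons x a ih =>
    obtain ⟨π, hπ⟩ := ih fun y hy => h (List.mem_cons_of_mem _ hy)
    obtain ⟨n, hn, hx⟩ := List.getElem_of_mem (h (List.mem_cons_self (a := x) (l := a)))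
    refine ⟨n :: π, ?_⟩
    unfold reindex at hπ ⊢
    rw [List.filterMap_cons, List.getElem?_eq_getElem hn, hx]
    simp only [hπ]

section kg

variable (M : St C) (ν : List ℕ → ℕ) (H : Subgroup (Equiv.Perm ℕ)) (ψ : H →* Equiv.Perm ℕ)

/-- the pairs (automorphism, induced permutation) -/
def kGroup : Subgroup (Equiv.Perm ℕ × Equiv.Perm ℕ) where
  carrier := {p | IsoH p.1 M M ∧ ∃ θ : H, ψ θ = p.2 ∧
    ∀ l : List ℕ, (θ : Equiv.Perm ℕ) (ν l) = ν (l.map p.1)}
  mul_mem' := by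
    rintro p q ⟨hp, θ, h1, h2⟩ ⟨hq, θ', h3, h4⟩
    refine ⟨(AutG M).mul_mem hp hq, θ * θ', by rw [map_mul, h1, h3]; rfl, fun l => ?_⟩
    change (θ : Equiv.Perm ℕ) ((θ' : Equiv.Perm ℕ) (ν l)) = _
    rw [h4, h2, List.map_map]
    rfl
  one_mem' := by
    refine ⟨(AutG M).one_mem, 1, map_one _, fun l => ?_⟩
    change ν l = ν (l.map id)
    rw [List.map_id]
  inv_mem' := by
    rintro p ⟨hp, θ, h1, h2⟩
    refine ⟨(AutG M).inv_mem hp, θ⁻¹, by rw [map_inv, h1]; rfl, fun l => ?_⟩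
    have h3 := h2 (l.map (p.1⁻¹ : Equiv.Perm ℕ))
    rw [List.map_map] at h3
    have h4 : l.map (p.1 ∘ (p.1⁻¹ : Equiv.Perm ℕ)) = l := by
      conv_rhs => rw [← List.map_id l]
      apply List.map_congr_left
      intro x _
      exact Equiv.apply_symm_apply p.1 x
    rw [h4] at h3
    change (θ : Equiv.Perm ℕ).symm (ν l) = ν (l.map (p.1⁻¹ : Equiv.Perm ℕ))
    rw [← h3]
    exact Equiv.symm_apply_apply _ _

lemma mem_kGroup {p : Equiv.Perm ℕ × Equiv.Perm ℕ} : p ∈ kGroup M ν H ψ ↔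
    IsoH p.1 M M ∧ ∃ θ : H, ψ θ = p.2 ∧
      ∀ l : List ℕ, (θ : Equiv.Perm ℕ) (ν l) = ν (l.map p.1) := Iff.rfl

end kg

lemma conn_to_cn {M : St C} {A : Set ℕ} {u v : ℕ} (h : Conn M A u v) :
    Pool.Agent.H41.HS.Cn (fun x y => M.1 x y = true) A u v := by
  obtain ⟨h1, h2⟩ := h
  induction h2 with
  | refl => exact Relation.ReflTransGen.refl
  | tail hb hs ih =>
    exact ih.tail ⟨hs.1, Conn.not_right ⟨h1, hb⟩, hs.2⟩

/-- permutations of finite order modulo a finite set of components -/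
lemma exists_pow_image {α : Type*} (h : Equiv.Perm α) (D : Set α) (F : Set (Set α))
    (hF : F.Finite) (hD : ∀ k : ℕ, (h ^ k : Equiv.Perm α) '' D ∈ F) :
    ∃ k : ℕ, 0 < k ∧ (h ^ k : Equiv.Perm α) '' D = D := by
  have h1 : ¬ Function.Injective fun k : ℕ => (⟨_, hD k⟩ : F) := by
    intro hinj
    have : Finite F := hF.to_subtype
    exact not_injective_infinite_finite _ hinj
  rw [Function.Injective] at h1
  push Not at h1
  obtain ⟨i, j, hij, hne⟩ := h1
  have hij' : (h ^ i : Equiv.Perm α) '' D = (h ^ j : Equiv.Perm α) '' D :=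
    congrArg Subtype.val hij
  clear hij
  wlog hlt : i < j generalizing i j
  · exact this j i (Ne.symm hne) hij'.symm (lt_of_le_of_ne (not_lt.1 hlt) (Ne.symm hne))
  refine ⟨j - i, by omega, ?_⟩
  have h2 : (h ^ j : Equiv.Perm α) '' D = (h ^ i : Equiv.Perm α) '' ((h ^ (j - i) : Equiv.Perm α) '' D) := by
    rw [image_image]
    have h3 : h ^ j = h ^ i * h ^ (j - i) := by
      rw [← pow_add]
      congr 1
      omega
    rw [h3]
    rfl
  rw [h2] at hij'
  exact (image_injective.2 (h ^ i).injective hij').symm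

/-- all the facts needed for the group theorem -/
theorem exists_sys (hRLB : RLB C) (hFLC : FLC C) (hLIFT : LIFT C) (hSWG : SWG C c0)
    (hITR : ITR C c0) (T : Set (Fl C)) (M : St C) (hV : Valid c0 M) (hBF : BigFin T M)
    (ν : List ℕ → ℕ) (φ : Y C) (hF : Flat T M ν φ) (H : Subgroup (Equiv.Perm ℕ))
    (hH : H ≤ AutY φ) (ψ : H →* Equiv.Perm ℕ) (hψ : Function.Surjective ψ)
    (hcont : ∀ n m, IsOpen[@instTopologicalSpaceSubtype _ _ permTop] {h : H | ψ h n = m})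
    (supp : ℕ → Finset ℕ) (hs : SuppD H ψ supp) :
    ∃ Z : Pool.Agent.H41.HS.Sys (fun x y => M.1 x y = true),
      Z.K = kGroup M ν H ψ ∧ ∀ a, Z.sup a = supp (ν a) := by
  classical
  have haut : ∀ θ : H, ∀ i j, φ ((θ : Equiv.Perm ℕ) i) ((θ : Equiv.Perm ℕ) j) = φ i j :=
    fun θ => hH θ.2
  have hcorr : ∀ θ : H, Corr T M M (fun l m => (θ : Equiv.Perm ℕ) (ν l) = ν m) ∧
      ∀ m, ∃ l, (θ : Equiv.Perm ℕ) (ν l) = ν m := fun θ =>
    hFLC T M M ν ν φ φ θ hF hF (haut θ)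
  have hmono : ∀ a b : List ℕ, a ⊆ b → supp (ν a) ⊆ supp (ν b) := by
    intro a b hab
    obtain ⟨π, hπ⟩ := exists_reindex hab
    refine hs.min _ _ fun σ hσ => ?_
    obtain ⟨θ, h1, h2⟩ := hs.surj _ σ hσ
    refine ⟨θ, ?_, h2⟩
    have h3 := (hcorr θ).1.ri π b b h1
    rwa [hπ] at h3
  -- lifting with prescribed stabiliser
  have hlift : ∀ (θ : H) (a : List ℕ), (θ : Equiv.Perm ℕ) (ν a) = ν a →
      ∃ h : Equiv.Perm ℕ, (h, ψ θ) ∈ kGroup M ν H ψ ∧ ∀ x ∈ a, h x = x := by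
    intro θ a ha
    obtain ⟨h, h1, h2, h3⟩ := hLIFT T M M _ (hcorr θ).1 (hcorr θ).2 a a ha
    refine ⟨h, ⟨h1, θ, rfl, h3⟩, ?_⟩
    have h4 : a.map h = a.map id := by rw [h2, List.map_id]
    exact List.map_inj_left.1 h4
  have hnil : supp (ν []) = ∅ := by
    refine Finset.subset_empty.1 (hs.min _ _ fun σ _ => ?_)
    obtain ⟨θ, hθ⟩ := hψ σ
    refine ⟨θ, ?_, hθ⟩
    obtain ⟨m, hm⟩ := (hcorr θ).1.tot []
    have h1 := (hcorr θ).1.len _ _ hm
    rw [List.length_nil, eq_comm, List.length_eq_zero_iff] at h1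
    rwa [h1] at hm
  have hunb : ∃ a, supp (ν a) ≠ ∅ := by
    by_contra hcon
    push Not at hcon
    -- a sequence converging to the identity
    have hex : ∀ n : ℕ, ∃ θ : H, (∀ i < n, (θ : Equiv.Perm ℕ) i = i) ∧ ψ θ 0 ≠ 0 := by
      intro n
      have hl : ∀ i, ∃ l, ν l = i := hF.surj
      choose l hl using hl
      obtain ⟨θ, h1, h2⟩ := hs.surj (ν ((List.range n).flatMap l)) (Equiv.swap 0 1) (by
        rw [hcon]; simp)
      refine ⟨θ, ?_, ?_⟩
      · intro i hi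
        have h3 : l i ⊆ (List.range n).flatMap l := by
          intro x hx
          exact List.mem_flatMap.2 ⟨i, List.mem_range.2 hi, hx⟩
        obtain ⟨π, hπ⟩ := exists_reindex h3
        have h4 := (hcorr θ).1.ri π _ _ h1
        rw [hπ, hl] at h4
        exact h4
      · rw [h2, Equiv.swap_apply_left]
        exact one_ne_zero
    choose θ hθ1 hθ2 using hex
    let := permTop
    have ht : Tendsto (fun n => ((θ n : H) : Equiv.Perm ℕ)) atTop (𝓝 1) := by
      refine tendsto_perm (fun a => ?_) (fun a => ?_)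
      · filter_upwards [eventually_gt_atTop a] with n hn
        exact hθ1 n a hn
      · filter_upwards [eventually_gt_atTop a] with n hn
        rw [Equiv.symm_apply_eq]
        exact (hθ1 n a hn).symm
    have ht' : Tendsto θ atTop (𝓝 (1 : H)) := by
      rw [tendsto_subtype_rng]
      exact ht
    have hev : ∀ᶠ n in atTop, ψ (θ n) 0 = 0 :=
      ht'.eventually ((hcont 0 0).mem_nhds (by
        change ψ 1 0 = 0
        rw [map_one]
        rfl))
    obtain ⟨n, hn⟩ := hev.exists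
    exact hθ2 n hn
  have hadj : ∀ p ∈ kGroup M ν H ψ, ∀ x y, M.1 x y = true → M.1 (p.1 x) (p.1 y) = true := by
    intro p hp x y hxy
    rw [← hp.1.1]
    exact hxy
  have hper : ∀ (a : List ℕ) (y : ℕ), y ∉ a → ∀ p ∈ kGroup M ν H ψ, (∀ x ∈ a, p.1 x = x) →
      ∃ k : ℕ, 0 < k ∧ ∃ h, (h, p.2 ^ k) ∈ kGroup M ν H ψ ∧ (∀ x ∈ a, h x = x) ∧
        Pool.Agent.H41.HS.Cn (fun x y => M.1 x y = true) {x | x ∈ a} y (h y) := by
    intro a y hy p hp hpa
    have hD : IsCp M (ms a) (cp M (ms a) y) := isCp_cp hy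
    have hyD : y ∈ cp M (ms a) y := self_mem_cp hy
    have hfix : ∀ k : ℕ, ∀ x ∈ a, (p.1 ^ k : Equiv.Perm ℕ) x = x := by
      intro k x hx
      induction k with
      | zero => rfl
      | succ k ih =>
        rw [pow_succ]
        change (p.1 ^ k : Equiv.Perm ℕ) (p.1 x) = x
        rw [hpa x hx, ih]
    have hpow : ∀ k : ℕ, (p.1 ^ k, p.2 ^ k) ∈ kGroup M ν H ψ := fun k =>
      (kGroup M ν H ψ).pow_mem hp k
    have himg : ∀ k : ℕ, (p.1 ^ k : Equiv.Perm ℕ) '' ms a = ms a := by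
      intro k
      ext x
      constructor
      · rintro ⟨z, hz, rfl⟩
        rw [hfix k z hz]
        exact hz
      · intro hx
        exact ⟨x, hx, hfix k x hx⟩
    have hcomp : ∀ k : ℕ, IsCp M (ms a) ((p.1 ^ k : Equiv.Perm ℕ) '' cp M (ms a) y) := by
      intro k
      have h1 := (hITR (p.1 ^ k) M M (hpow k).1).1 _ _ hD
      rwa [himg k] at h1
    by_cases hT : InT T M a (cp M (ms a) y)
    · refine ⟨1, one_pos, ?_⟩
      rw [pow_one]
      have hD1 := hcomp 1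
      rw [pow_one] at hD1
      by_cases heq : p.1 '' cp M (ms a) y = cp M (ms a) y
      · refine ⟨p.1, hp, hpa, conn_to_cn (M := M) ?_⟩
        have h2 : p.1 y ∈ cp M (ms a) y := by
          rw [← heq]
          exact ⟨y, hyD, rfl⟩
        exact h2
      · have hFI : FIh p.1 M a (cp M (ms a) y) M a (p.1 '' cp M (ms a) y) := by
          refine ⟨rfl, p.1.injective.injOn.bijOn_image, fun x hx => PI_of_isoH hp.1 ?_⟩
          intro z hz
          rw [List.mem_append] at hz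
          rcases hz with hz | hz
          · rw [← dg_eq_zip, mem_dg] at hz
            rw [hpa z.1 hz.2]
            exact hz.1.symm
          · obtain ⟨u, -, rfl⟩ := List.mem_map.1 hz
            rfl
        obtain ⟨f, f1, f2, f3, f4, f5⟩ := hSWG M hV a _ _ p.1 hD hD1 (Ne.symm heq) hFI
        have hfN : f ∈ N0 T M := Subgroup.subset_closure
          ⟨f1, f2, a, _, _, hD, hD1, Ne.symm heq, hT, f4, f5⟩
        have hfa : ∀ x ∈ a, f x = x := fun x hx =>
          f5 x (fun h => Set.disjoint_left.1 hD.disj h hx)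
            (fun h => Set.disjoint_left.1 hD1.disj h hx)
        refine ⟨f * p.1, ?_, ?_, conn_to_cn (M := M) ?_⟩
        · obtain ⟨hp1, θ, h1, h2⟩ := hp
          refine ⟨(AutG M).mul_mem f1 hp1, θ, h1, fun l => ?_⟩
          rw [h2, hF.ker]
          refine ⟨f, hfN, ?_⟩
          rw [List.map_map]
          rfl
        · intro x hx
          change f (p.1 x) = x
          rw [hpa x hx, hfa x hx]
        · change f (p.1 y) ∈ cp M (ms a) y
          rw [← f3 y hyD, f2]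
          exact hyD
    · obtain ⟨k, hk, hkD⟩ := exists_pow_image p.1 (cp M (ms a) y) _ (hBF a) (by
        intro k
        refine ⟨hcomp k, ?_⟩
        rintro ⟨t, ht, h1⟩
        apply hT
        refine ⟨t, ht, FI.trans ⟨(p.1 ^ k : Equiv.Perm ℕ), rfl,
          (p.1 ^ k).injective.injOn.bijOn_image, fun x hx => PI_of_isoH (hpow k).1 ?_⟩ h1⟩
        intro z hz
        rw [List.mem_append] at hz
        rcases hz with hz | hz
        · rw [← dg_eq_zip, mem_dg] at hz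
          rw [hfix k z.1 hz.2]
          exact hz.1.symm
        · obtain ⟨u, -, rfl⟩ := List.mem_map.1 hz
          rfl)
      refine ⟨k, hk, p.1 ^ k, hpow k, hfix k, conn_to_cn (M := M) ?_⟩
      have h2 : (p.1 ^ k : Equiv.Perm ℕ) y ∈ (p.1 ^ k : Equiv.Perm ℕ) '' cp M (ms a) y :=
        ⟨y, hyD, rfl⟩
      rw [hkD] at h2
      exact h2
  refine ⟨{ K := kGroup M ν H ψ, sup := fun a => supp (ν a), adj := hadj, eqv := ?_,
            mono := hmono, surj := ?_, nil := hnil, unb := hunb, per := hper }, rfl,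
          fun _ => rfl⟩
  · rintro p ⟨hp, θ, h1, h2⟩ a n
    rw [hs.eqv θ (ν a) n, h1, h2]
  · intro a σ hσ
    obtain ⟨θ, h1, h2⟩ := hs.surj _ σ hσ
    obtain ⟨h, h3, h4⟩ := hlift θ a h1
    rw [h2] at h3
    exact ⟨h, h3, h4⟩

end Pool.Agent.H71.VK
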