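import Pool.Agent.H71.VK.Stmt

/-! REDG: from structures with an explicit graph to relational structures. -/

set_option autoImplicit false

open Set Pool.Agent.TK

namespace Pool.Agent.H71.VK

open Classical in
/-- a relational structure with its Gaifman graph -/
noncomputable def mk {C : Type} (c0 : C) (x : List ℕ → C) : St C :=
  (fun u v => decide ((Gaifman c0 x).Adj u v), x)

/-- REDG: the general theorem for relational structures. -/
def REDG (C : Type) (c0 : C) [MeasurableSpace C] [StandardBorelSpace C] : Prop :=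
  ∀ P : St C → Prop,
    (∀ (T : Set (Fl C)) (M : St C), Valid c0 M → BigFin T M → ∀ (ν : List ℕ → ℕ) (φ : Y C),
      Flat T M ν φ → PDiv (AutY φ) → P M) →
    ∀ X : Set (List ℕ → C), MeasurableSet X → (∀ c ∈ X, ∀ c', RIso c c' → c' ∈ X) →
      (∃ f : (ℕ → Bool) → List ℕ → C, Measurable f ∧ (∀ x, f x ∈ X) ∧
        ∀ x x', x ≠ x' → ¬ RIso (f x) (f x')) ∨
      (∃ T : Set (List ℕ → C), T.Countable ∧ ∀ c ∈ X, ∃ c' ∈ T, RIso c c') ∨
      ¬ ∃ T : Set (List ℕ → C), T.Countable ∧ ∀ c ∈ X, P (mk c0 c) → ∃ c' ∈ T, RIso c c'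

variable {C : Type} {c0 : C}

lemma valid_mk (x : List ℕ → C) : Valid c0 (mk c0 x) := by
  classical
  refine ⟨fun u v => ?_, fun u => ?_, fun l hl u hu v hv huv => ?_⟩
  · simp only [mk]
    congr 1
    exact propext ⟨fun h => h.symm, fun h => h.symm⟩
  · simp [mk]
  · simp only [mk, decide_eq_true_eq]
    exact ⟨huv, l, hl, hu, hv⟩

lemma adj_of_riso {x y : List ℕ → C} {h : Equiv.Perm ℕ} (H : ∀ l : List ℕ, x l = y (l.map h))
    (u v : ℕ) : (Gaifman c0 x).Adj u v ↔ (Gaifman c0 y).Adj (h u) (h v) := by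
  constructor
  · rintro ⟨h1, l, h2, h3, h4⟩
    refine ⟨fun e => h1 (h.injective e), l.map h, ?_, List.mem_map_of_mem h3,
      List.mem_map_of_mem h4⟩
    rwa [← H]
  · rintro ⟨h1, l, h2, h3, h4⟩
    refine ⟨fun e => h1 (congrArg h e), l.map h.symm, ?_, ?_, ?_⟩
    · rw [H, List.map_map]
      simpa using h2
    · exact List.mem_map.2 ⟨h u, h3, h.symm_apply_apply u⟩
    · exact List.mem_map.2 ⟨h v, h4, h.symm_apply_apply v⟩

lemma isoH_mk_iff {x y : List ℕ → C} {h : Equiv.Perm ℕ} :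
    IsoH h (mk c0 x) (mk c0 y) ↔ ∀ l : List ℕ, x l = y (l.map h) := by
  classical
  constructor
  · exact fun H => H.2
  · intro H
    refine ⟨fun u v => ?_, H⟩
    simp only [mk]
    congr 1
    exact propext (adj_of_riso H u v)

lemma iso_mk_iff {x y : List ℕ → C} : Iso (mk c0 x) (mk c0 y) ↔ RIso x y := by
  constructor
  · rintro ⟨h, -, h1, h2⟩
    exact ⟨h, isoH_mk_iff.1 ⟨h1, h2⟩⟩
  · rintro ⟨h, h1⟩
    have h2 := (isoH_mk_iff (c0 := c0)).2 h1
    exact ⟨h, by simp, h2.1, h2.2⟩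

theorem pf_REDG [MeasurableSpace C] [StandardBorelSpace C] (hGEN : GEN C c0) : REDG C c0 := by
  classical
  intro P hP X hX hI
  set X' : Set (St C) := {M | M.2 ∈ X ∧ ∀ u v, (M.1 u v = true ↔ (Gaifman c0 M.2).Adj u v)}
    with hX'
  have hmk : ∀ M ∈ X', M = mk c0 M.2 := by
    rintro M ⟨-, hM⟩
    refine Prod.ext ?_ rfl
    funext u v
    rw [Bool.eq_iff_iff, hM u v]
    simp [mk]
  have hmk2 : ∀ x ∈ X, mk c0 x ∈ X' := fun x hx => ⟨hx, fun u v => by simp [mk]⟩
  have hm : MeasurableSet X' := by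
    have h1 : MeasurableSet {M : St C | M.2 ∈ X} := hX.preimage measurable_snd
    have h2 : ∀ u v, MeasurableSet {M : St C | M.1 u v = true} := by
      intro u v
      have h3 : Measurable fun M : St C => M.1 u v :=
        (measurable_pi_apply v).comp ((measurable_pi_apply u).comp measurable_fst)
      exact h3 (measurableSet_singleton true)
    have h3 : ∀ u v, MeasurableSet {M : St C | (Gaifman c0 M.2).Adj u v} := by
      intro u v
      have h4 : {M : St C | (Gaifman c0 M.2).Adj u v} =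
          {_M : St C | u ≠ v} ∩ ⋃ l : List ℕ, ⋃ _ : u ∈ l ∧ v ∈ l, {M : St C | M.2 l = c0}ᶜ := by
        ext M
        simp only [mem_ofPred_eq, mem_inter_iff, mem_iUnion, mem_compl_iff]
        constructor
        · rintro ⟨h5, l, h6, h7, h8⟩
          exact ⟨h5, l, ⟨h7, h8⟩, h6⟩
        · rintro ⟨h5, l, ⟨h7, h8⟩, h6⟩
          exact ⟨h5, l, h6, h7, h8⟩
      rw [h4]
      refine MeasurableSet.inter (MeasurableSet.const _) ?_
      refine MeasurableSet.iUnion fun l => MeasurableSet.iUnion fun _ => MeasurableSet.compl ?_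
      have h5 : Measurable fun M : St C => M.2 l := (measurable_pi_apply l).comp measurable_snd
      exact h5 (measurableSet_singleton c0)
    have h4 : X' = {M : St C | M.2 ∈ X} ∩ ⋂ u, ⋂ v,
        {M : St C | M.1 u v = true ↔ (Gaifman c0 M.2).Adj u v} := by
      ext M
      simp only [hX', mem_ofPred_eq, mem_inter_iff, mem_iInter]
    rw [h4]
    refine h1.inter (MeasurableSet.iInter fun u => MeasurableSet.iInter fun v => ?_)
    have h5 : {M : St C | M.1 u v = true ↔ (Gaifman c0 M.2).Adj u v} =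
        ({M : St C | M.1 u v = true} ∩ {M : St C | (Gaifman c0 M.2).Adj u v}) ∪
          ({M : St C | M.1 u v = true}ᶜ ∩ {M : St C | (Gaifman c0 M.2).Adj u v}ᶜ) := by
      ext M
      simp only [mem_ofPred_eq, mem_union, mem_inter_iff, mem_compl_iff]
      tauto
    rw [h5]
    exact ((h2 u v).inter (h3 u v)).union ((h2 u v).compl.inter (h3 u v).compl)
  have hV : ∀ M ∈ X', Valid c0 M := fun M hM => by rw [hmk M hM]; exact valid_mk _
  have hinv : ∀ M ∈ X', ∀ N, Iso M N → N ∈ X' := by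
    rintro M hM N ⟨h, -, h1, h2⟩
    refine ⟨hI _ hM.1 _ ⟨h, h2⟩, fun u v => ?_⟩
    have h3 := hM.2 (h.symm u) (h.symm v)
    rw [h1, Equiv.apply_symm_apply, Equiv.apply_symm_apply, adj_of_riso h2,
      Equiv.apply_symm_apply, Equiv.apply_symm_apply] at h3
    exact h3
  rcases hGEN P hP X' hm hV hinv with ⟨f, hf1, hf2, hf3⟩ | ⟨T, hT1, hT2⟩ | h
  · left
    refine ⟨fun x => (f x).2, measurable_snd.comp hf1, fun x => (hf2 x).1, ?_⟩
    intro x x' hxx hiso
    apply hf3 x x' hxx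
    rw [hmk _ (hf2 x), hmk _ (hf2 x')]
    exact iso_mk_iff.2 hiso
  · right; left
    refine ⟨Prod.snd '' T, hT1.image _, fun c hc => ?_⟩
    obtain ⟨N, hN, h, -, -, h2⟩ := hT2 _ (hmk2 c hc)
    exact ⟨_, ⟨N, hN, rfl⟩, h, h2⟩
  · right; right
    rintro ⟨T, hT1, hT2⟩
    apply h
    refine ⟨mk c0 '' T, hT1.image _, fun M hM hPM => ?_⟩
    have h1 := hmk M hM
    rw [h1] at hPM
    obtain ⟨c', hc', hiso⟩ := hT2 _ hM.1 hPM
    refine ⟨_, ⟨c', hc', rfl⟩, ?_⟩
    rw [h1]
    exact iso_mk_iff.2 hiso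

end Pool.Agent.H71.VK
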