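import Pool.Agent.H71.VK.GEN
import Pool.Agent.H71.VK.REDG
import Pool.Agent.H71.VK.FIM
import Pool.Agent.H71.VK.HSK
import Pool.Agent.H77.VK.HB
import Pool.Agent.H94.VK.RLM
import Pool.Agent.H94.VK.MVM
import Pool.Agent.H94.VK.FLX
import Pool.Agent.H94.VK.FLI
import Pool.Agent.H54.VK.RTR
import Pool.Agent.H74.VK.FLC
import Pool.Agent.H34.VK.LIFT
import Pool.Agent.H75.TK.SC1
import Pool.Agent.H75.TK.SC2
import Pool.Agent.H75.TK.SCO
import Pool.Agent.H75.TK.THN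
import Pool.Agent.H75.TK.TYC
import Pool.Agent.H75.TK.COMP
import Pool.Agent.H16.TK.NFM
import Pool.Agent.H16.TK.CNT
import Pool.Agent.H76.TK.LOP
import Pool.Agent.H76.TK.FINB
import Pool.Agent.H76.TK.EXN
import Pool.Agent.H77.TK.MEA
import Pool.Agent.H74.TK.MEM
import Pool.Agent.H1.TK.TRA
import Pool.Agent.H54.TK.INF
import Pool.Agent.H34.TK.REL
import Pool.Agent.H34.TK.CTR
import Pool.Agent.H66.TK.ITR

/-! Assembly of the theorem with an arbitrary conclusion. -/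

set_option autoImplicit false

open Set Pool.Agent.TK

namespace Pool.Agent.H71.VK

variable {C : Type} {c0 : C} [MeasurableSpace C] [StandardBorelSpace C]

theorem hb (hRPF : RPF C c0) : HB C c0 :=
  pf_HB pf_LOP pf_NFM (pf_TYC pf_THN pf_NFM) (pf_CNT (pf_REL pf_CTR))
    (pf_FINB (pf_EXN pf_TRA pf_INF) hRPF (pf_MEM pf_COMP hRPF) (pf_MEA hRPF))

theorem asm (hRPF : RPF C c0) (hSWG : SWG C c0) (hRLB : RLB C) : REDG C c0 :=
  pf_REDG (pf_GEN (hb hRPF)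
    (pf_RLM hRLB (pf_MVM hSWG (pf_FIM (pf_SCO pf_SC1 pf_SC2)))) (pf_FLX hRLB)
    (pf_FLI (pf_RTR pf_ITR) hRLB) pf_FLC (pf_LIFT hRLB))

end Pool.Agent.H71.VK
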