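import Pool.Agent.H16.TK.Stmt2
import Pool.Agent.H71.HV.Defs
import Pool.Agent.H71.PermTop

/-!
Second half of the theorem on classes of structures without infinitely many pairwise inseparable
vertices, by the quotient structure and the local Hjorth theorem.  Proof text:
H71_K_proof.md in the team store, steps (6)-(9).  Base: the definitions of helper16.
-/

set_option autoImplicit false

open Set Pool.Agent.TK

namespace Pool.Agent.H71.VK

variable {C : Type}

/-- the value of a list together with the adjacency of its two elements if it has length two -/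
def edge (M : St C) : List ℕ → Bool
  | [u, v] => M.1 u v
  | _ => false

/-- all information on a list -/
def cval (M : St C) (l : List ℕ) : C × Bool := (M.2 l, edge M l)

/-- the automorphism group -/
def AutG (M : St C) : Subgroup (Equiv.Perm ℕ) where
  carrier := {h | IsoH h M M}
  mul_mem' := by
    intro a b ha hb
    refine ⟨fun u v => ?_, fun l => ?_⟩
    · rw [hb.1, ha.1]
      rfl
    · rw [hb.2, ha.2, List.map_map]
      rfl
  one_mem' := ⟨fun _ _ => rfl, fun l => by simp⟩
  inv_mem' := by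
    intro a ha
    refine ⟨fun u v => ?_, fun l => ?_⟩
    · have h := ha.1 (a⁻¹ u) (a⁻¹ v)
      rw [← Equiv.Perm.mul_apply, ← Equiv.Perm.mul_apply, mul_inv_cancel] at h
      exact h.symm
    · have h := ha.2 (l.map (a⁻¹ : Equiv.Perm ℕ))
      rw [List.map_map] at h
      rw [h]
      congr 1
      rw [← Equiv.Perm.coe_mul, mul_inv_cancel]
      simp

/-- there is an infinite set of vertices no two of which are separated by a finite set -/
def Insep (M : St C) : Prop :=
  ∃ W : Set ℕ, W.Infinite ∧ ∀ a ∈ W, ∀ b ∈ W, ∀ S : Set ℕ, S.Finite → a ∉ S → b ∉ S →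
    Conn M S a b

/-- the type of the flap is in the (countable) set `T` -/
def InT (T : Set (Fl C)) (M : St C) (a : List ℕ) (D : Set ℕ) : Prop :=
  ∃ t ∈ T, FI M a D t.1 t.2.1 t.set

/-- over every finite set only finitely many components have a type outside `T` -/
def BigFin (T : Set (Fl C)) (M : St C) : Prop :=
  ∀ a : List ℕ, {D : Set ℕ | IsCp M (ms a) D ∧ ¬ InT T M a D}.Finite

/-! ### swaps -/

/-- `f` is an automorphism exchanging two components whose type is in `T` and fixing
everything else -/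
def IsSwap (T : Set (Fl C)) (M : St C) (f : Equiv.Perm ℕ) : Prop :=
  IsoH f M M ∧ (∀ a, f (f a) = a) ∧ ∃ (s : List ℕ) (D D' : Set ℕ), IsCp M (ms s) D ∧
    IsCp M (ms s) D' ∧ D ≠ D' ∧ InT T M s D ∧ f '' D = D' ∧ ∀ x, x ∉ D → x ∉ D' → f x = x

/-- the group generated by the swaps -/
def N0 (T : Set (Fl C)) (M : St C) : Subgroup (Equiv.Perm ℕ) :=
  Subgroup.closure {f | IsSwap T M f}

/-- two lists are in the same orbit of the group generated by the swaps -/
def Rel (T : Set (Fl C)) (M : St C) (l m : List ℕ) : Prop := ∃ n ∈ N0 T M, l.map n = m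

/-- one swap move -/
def Mv (T : Set (Fl C)) (M : St C) (l m : List ℕ) : Prop := ∃ f, IsSwap T M f ∧ l.map f = m

/-- the list of the entries of `l` at the places `π` (places outside are ignored) -/
def reindex (π l : List ℕ) : List ℕ := π.filterMap fun i => l[i]?

/-! ### the quotient structure -/

/-- the space of quotient structures -/
abbrev Y (C : Type) := ℕ → ℕ → (C × Bool) × ℕ × (List ℕ → Bool)

/-- automorphisms of `φ` -/
def AutY (φ : Y C) : Subgroup (Equiv.Perm ℕ) where
  carrier := {g | ∀ i j, φ (g i) (g j) = φ i j}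
  mul_mem' := by
    intro a b ha hb i j
    rw [Equiv.Perm.mul_apply, Equiv.Perm.mul_apply, ha, hb]
  one_mem' := fun _ _ => rfl
  inv_mem' := by
    intro a ha i j
    have h := ha (a⁻¹ i) (a⁻¹ j)
    rw [← Equiv.Perm.mul_apply, ← Equiv.Perm.mul_apply, mul_inv_cancel] at h
    exact h.symm

open Classical in
/-- `ν` is an enumeration of the orbits of lists and `φ` is the structure coded with it -/
structure Flat (T : Set (Fl C)) (M : St C) (ν : List ℕ → ℕ) (φ : Y C) : Prop where
  surj : Function.Surjective ν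
  ker : ∀ l m, ν l = ν m ↔ Rel T M l m
  val : ∀ l j, φ (ν l) j = (cval M l, l.length, fun π => decide (ν (reindex π l) = j))

/-- correspondences between the orbits of lists of `M` and of `N` -/
structure Corr (T : Set (Fl C)) (M N : St C) (R : List ℕ → List ℕ → Prop) : Prop where
  col : ∀ l m, R l m → cval M l = cval N m
  len : ∀ l m, R l m → l.length = m.length
  ri : ∀ π l m, R l m → R (reindex π l) (reindex π m)
  sat : ∀ l m l' m', R l m → Rel T M l l' → Rel T N m m' → R l' m'
  uniq : ∀ l m m', R l m → R l m' → Rel T N m m'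
  inj : ∀ l l' m, R l m → R l' m → Rel T M l l'
  tot : ∀ l, ∃ m, R l m

/-- divisible by the infinite symmetric group -/
def PDiv (K : Subgroup (Equiv.Perm ℕ)) : Prop :=
  @Pool.Agent.H71.HV.SDivides (Equiv.Perm ℕ) _ Pool.Agent.H71.permTop K

/-! ### the statements -/

/-- SWG: gluing a swap from an isomorphism of two components. -/
def SWG (C : Type) (c0 : C) : Prop :=
  ∀ M : St C, Valid c0 M → ∀ (s : List ℕ) (D D' : Set ℕ) (h : ℕ → ℕ), IsCp M (ms s) D →
    IsCp M (ms s) D' → D ≠ D' → FIh h M s D M s D' →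
    ∃ f : Equiv.Perm ℕ, IsoH f M M ∧ (∀ a, f (f a) = a) ∧ (∀ a ∈ D, f a = h a) ∧
      f '' D = D' ∧ ∀ x, x ∉ D → x ∉ D' → f x = x

/-- RLB: elementary properties of `Rel`. -/
def RLB (C : Type) : Prop :=
  ∀ (T : Set (Fl C)) (M : St C), Equivalence (Rel T M) ∧
    (∀ l m, Rel T M l m → cval M l = cval M m ∧ l.length = m.length ∧
      ∀ π, Rel T M (reindex π l) (reindex π m)) ∧
    ∀ l m, Rel T M l m ↔ Relation.ReflTransGen (Mv T M) l m

/-- RTR: transport of `Rel` by isomorphisms. -/
def RTR (C : Type) (c0 : C) : Prop :=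
  ∀ (T : Set (Fl C)) (M N : St C) (h : Equiv.Perm ℕ), Valid c0 M → Valid c0 N → IsoH h M N →
    ∀ l m, Rel T M l m → Rel T N (l.map h) (m.map h)

/-- FIM: being isomorphic to a fixed flap is a Borel condition. -/
def FIM (C : Type) [MeasurableSpace C] [StandardBorelSpace C] : Prop :=
  ∀ (a : List ℕ) (A : Set ℕ) (v : ℕ) (N : St C) (b : List ℕ) (E : Set ℕ),
    MeasurableSet {M : St C | FI M a (cp M A v) N b E}

/-- MVM: swap moves are Borel. -/
def MVM (C : Type) (c0 : C) [MeasurableSpace C] [StandardBorelSpace C] : Prop :=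
  ∀ T : Set (Fl C), T.Countable → ∀ l m : List ℕ, MeasurableSet {M : St C | Valid c0 M ∧ Mv T M l m}

/-- RLM: the relation `Rel` is Borel. -/
def RLM (C : Type) (c0 : C) [MeasurableSpace C] [StandardBorelSpace C] : Prop :=
  ∀ T : Set (Fl C), T.Countable → ∀ l m : List ℕ, MeasurableSet {M : St C | Valid c0 M ∧ Rel T M l m}

/-- FLX: the quotient structures exist and depend on the structure in a Borel way. -/
def FLX (C : Type) [MeasurableSpace C] : Prop :=
  ∀ (T : Set (Fl C)) (Z : Type) [MeasurableSpace Z] (M : Z → St C), Measurable M →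
    (∀ l m, MeasurableSet {z | Rel T (M z) l m}) →
    ∃ (ν : Z → List ℕ → ℕ) (Φ : Z → Y C), Measurable Φ ∧ ∀ z, Flat T (M z) (ν z) (Φ z)

/-- FLI: isomorphic structures have isomorphic quotient structures. -/
def FLI (C : Type) (c0 : C) : Prop :=
  ∀ (T : Set (Fl C)) (M N : St C) (ν ν' : List ℕ → ℕ) (φ φ' : Y C) (h : Equiv.Perm ℕ),
    Valid c0 M → Valid c0 N → Flat T M ν φ → Flat T N ν' φ' → IsoH h M N →
    ∃ g : Equiv.Perm ℕ, (∀ i j, φ' (g i) (g j) = φ i j) ∧ ∀ l, g (ν l) = ν' (l.map h)

/-- FLC: an isomorphism of the quotient structures is an onto correspondence. -/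
def FLC (C : Type) : Prop :=
  ∀ (T : Set (Fl C)) (M N : St C) (ν ν' : List ℕ → ℕ) (φ φ' : Y C) (g : Equiv.Perm ℕ),
    Flat T M ν φ → Flat T N ν' φ' → (∀ i j, φ' (g i) (g j) = φ i j) →
    Corr T M N (fun l m => g (ν l) = ν' m) ∧ ∀ m, ∃ l, g (ν l) = ν' m

/-- LIFT: an onto correspondence lifts to an isomorphism. -/
def LIFT (C : Type) : Prop :=
  ∀ (T : Set (Fl C)) (M N : St C) (R : List ℕ → List ℕ → Prop), Corr T M N R →
    (∀ m, ∃ l, R l m) → ∀ l m, R l m →
    ∃ h : Equiv.Perm ℕ, IsoH h M N ∧ l.map h = m ∧ ∀ k, R k (k.map h)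

/-- EMB: a correspondence lifts to an embedding. -/
def EMB (C : Type) : Prop :=
  ∀ (T : Set (Fl C)) (M N : St C) (R : List ℕ → List ℕ → Prop), Corr T M N R →
    ∀ l m, R l m →
    ∃ g : ℕ → ℕ, Function.Injective g ∧ (∀ k, cval N (k.map g) = cval M k) ∧ l.map g = m ∧
      ∀ k, R k (k.map g)

/-- CLA: infinitely many neighbours of a missed component are pairwise inseparable. -/
def CLA (C : Type) (c0 : C) : Prop :=
  ∀ (M : St C), Valid c0 M → ∀ (g : ℕ → ℕ), Function.Injective g →
    (∀ F : Set ℕ, F.Finite → ∃ h : Equiv.Perm ℕ, IsoH h M M ∧ ∀ a ∈ F, h a = g a) →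
    ∀ v, v ∉ range g → ¬ (Nb M (cp M (range g) v)).Finite → Insep M

/-- CLB: the limit of onto correspondences is onto. -/
def CLB (C : Type) (c0 : C) : Prop :=
  ∀ (T : Set (Fl C)) (M : St C), Valid c0 M → BigFin T M → ¬ Insep M →
    ∀ (R : ℕ → List ℕ → List ℕ → Prop) (Q : List ℕ → List ℕ → Prop),
    (∀ n, Corr T M M (R n)) → (∀ n m, ∃ l, R n l m) → Corr T M M Q →
    (∀ l, ∃ n0, ∀ n, n0 ≤ n → ∀ m, R n l m ↔ Q l m) → ∀ m, ∃ l, Q l m

/-- CLI: if there are not infinitely many inseparable vertices then the automorphism group of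
the quotient structure is not divisible by the infinite symmetric group. -/
def CLI (C : Type) (c0 : C) : Prop :=
  ∀ (T : Set (Fl C)) (M : St C), Valid c0 M → BigFin T M → ¬ Insep M →
    ∀ (ν : List ℕ → ℕ) (φ : Y C), Flat T M ν φ → ¬ PDiv (AutY φ)

/-- DVT: divisibility is inherited by the automorphism group of the structure. -/
def DVT (C : Type) (c0 : C) : Prop :=
  ∀ (T : Set (Fl C)) (M : St C), Valid c0 M → ∀ (ν : List ℕ → ℕ) (φ : Y C), Flat T M ν φ →
    PDiv (AutY φ) → PDiv (AutG M)

/-- HB: the first half: a countable set of types such that big components are rare. -/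
def HB (C : Type) (c0 : C) [MeasurableSpace C] : Prop :=
  ∀ X : Set (St C), MeasurableSet X → (∀ M ∈ X, Valid c0 M) → (∀ M ∈ X, ∀ N, Iso M N → N ∈ X) →
    ¬ Perf X → ∃ T : Set (Fl C), T.Countable ∧ ∀ M ∈ X, BigFin T M

/-- GEN: the theorem for an arbitrary conclusion `P` which follows from divisibility of the
quotient structure. -/
def GEN (C : Type) (c0 : C) [MeasurableSpace C] [StandardBorelSpace C] : Prop :=
  ∀ P : St C → Prop,
    (∀ (T : Set (Fl C)) (M : St C), Valid c0 M → BigFin T M → ∀ (ν : List ℕ → ℕ) (φ : Y C),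
      Flat T M ν φ → PDiv (AutY φ) → P M) →
    ∀ X : Set (St C), MeasurableSet X → (∀ M ∈ X, Valid c0 M) →
      (∀ M ∈ X, ∀ N, Iso M N → N ∈ X) →
      Perf X ∨ (∃ T : Set (St C), T.Countable ∧ ∀ M ∈ X, ∃ N ∈ T, Iso M N) ∨
      ¬ ∃ T : Set (St C), T.Countable ∧ ∀ M ∈ X, P M → ∃ N ∈ T, Iso M N

end Pool.Agent.H71.VK
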